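import Pool.Agent.Run7.h690.CL.Iface

set_option autoImplicit false

/-!
# The counterexample for enough d-definable sets: a discrete set with one unary predicate
-/

open Pool.Agent.Run7.h690.CL

namespace Pool.Agent.Run7.h194.CL

/-- the signature with one unary predicate symbol, with the modulus of continuity `1/2` -/
noncomputable def LP : Sig where
  Fn _ := Empty
  Rl n := PLift (n = 1)
  mf F _ := F.elim
  mr _ _ := 1 / 2
  mf_pos F _ _ := F.elim
  mr_pos _ _ _ := by norm_num

/-- every structure in which the metric takes only the values `0` and `1` -/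
def ZO (M : Type) [MetricSpace M] : Prop := ∀ x y : M, dist x y = 0 ∨ dist x y = 1

/-- the value of the unary predicate -/
noncomputable def PP {M : Type} [MetricSpace M] [Str LP M] (x : M) : ℝ :=
  Str.rl (L := LP) (M := M) (n := 1) ⟨rfl⟩ (fun _ => x)

theorem PP_mem {M : Type} [MetricSpace M] [Str LP M] (x : M) : PP x ∈ Set.Icc (0 : ℝ) 1 :=
  Str.rl_mem (L := LP) (M := M) (n := 1) ⟨rfl⟩ (fun _ => x)

section general

variable {L : Sig} {C : Type} {M : Type} [MetricSpace M] [Str L M]

theorem val_mem (c : C → M) {n : ℕ} (φ : Fm L C n) :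
    ∀ v : Fin n → M, φ.val c v ∈ Set.Icc (0 : ℝ) 1 := by
  induction φ with
  | rel R ts => intro v; exact Str.rl_mem R _
  | dst s t => intro v; exact ⟨dist_nonneg, Str.diam (L := L) _ _⟩
  | con u φs ih => intro v; exact u.mem _
  | sup φ ih =>
    intro v
    have : Nonempty M := Str.ne (L := L)
    have hb : BddAbove (Set.range fun x : M => φ.val c (Fin.snoc (α := fun _ => M) v x)) :=
      ⟨1, by rintro _ ⟨x, rfl⟩; exact (ih _).2⟩
    obtain ⟨x0⟩ := ‹Nonempty M›
    have : Nonempty M := ⟨x0⟩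
    exact ⟨le_trans (ih _).1 (le_ciSup hb x0), ciSup_le fun x => (ih _).2⟩
  | inf φ ih =>
    intro v
    have : Nonempty M := Str.ne (L := L)
    have hb : BddBelow (Set.range fun x : M => φ.val c (Fin.snoc (α := fun _ => M) v x)) :=
      ⟨0, by rintro _ ⟨x, rfl⟩; exact (ih _).1⟩
    obtain ⟨x0⟩ := ‹Nonempty M›
    have : Nonempty M := ⟨x0⟩
    exact ⟨le_ciInf fun x => (ih _).1, le_trans (ciInf_le hb x0) (ih _).2⟩

theorem bddA (c : C → M) {n : ℕ} (φ : Fm L C (n + 1)) (v : Fin n → M) :
    BddAbove (Set.range fun x : M => φ.val c (Fin.snoc (α := fun _ => M) v x)) :=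
  ⟨1, by rintro _ ⟨x, rfl⟩; exact (val_mem c φ _).2⟩

theorem bddB (c : C → M) {n : ℕ} (φ : Fm L C (n + 1)) (v : Fin n → M) :
    BddBelow (Set.range fun x : M => φ.val c (Fin.snoc (α := fun _ => M) v x)) :=
  ⟨0, by rintro _ ⟨x, rfl⟩; exact (val_mem c φ _).1⟩

end general

section inv

variable {C : Type} [IsEmpty C] {M : Type} [MetricSpace M] [Str LP M]

theorem tm_var {n : ℕ} (t : Tm LP C n) : ∃ i, t = .var i := by
  cases t with
  | var i => exact ⟨i, rfl⟩
  | cst a => exact (IsEmpty.false a).elim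
  | app F ts => exact (F : Empty).elim

/-- almost invariance of the formulas under the bijections which almost preserve the predicate -/
theorem inv (hM : ZO M) (c : C → M) {n : ℕ} (φ : Fm LP C n) :
    ∀ ε : ℝ, 0 < ε → ∃ δ : ℝ, 0 < δ ∧ ∀ h : Equiv.Perm M, (∀ z, |PP (h z) - PP z| ≤ δ) →
      ∀ v : Fin n → M, |φ.val c (fun i => h (v i)) - φ.val c v| ≤ ε := by
  induction φ with
  | @rel n k R ts =>
    intro ε hε
    refine ⟨ε, hε, fun h hh v => ?_⟩
    have hk : k = 1 := PLift.down (show PLift (k = 1) from R)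
    subst hk
    obtain ⟨i, hi⟩ := tm_var (ts 0)
    have e : ∀ w : Fin n → M, (Fm.rel (C := C) (L := LP) (k := 1) R ts).val c w = PP (w i) := by
      intro w
      have : (fun j => (ts j).val c w) = fun _ => w i := by
        funext j
        obtain rfl : j = 0 := Subsingleton.elim _ _
        rw [hi]; rfl
      show Str.rl (L := LP) R (fun j => (ts j).val c w) = _
      rw [this]; rfl
    rw [e, e]
    exact hh (v i)
  | dst s t =>
    intro ε hε
    refine ⟨ε, hε, fun h _ v => ?_⟩
    obtain ⟨i, rfl⟩ := tm_var s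
    obtain ⟨j, rfl⟩ := tm_var t
    have : dist (h (v i)) (h (v j)) = dist (v i) (v j) := by
      by_cases e : v i = v j
      · rw [e]; simp
      · have e' : h (v i) ≠ h (v j) := fun H => e (h.injective H)
        rcases hM (v i) (v j) with h0 | h1
        · exact absurd (dist_eq_zero.1 h0) e
        rcases hM (h (v i)) (h (v j)) with h0' | h1'
        · exact absurd (dist_eq_zero.1 h0') e'
        rw [h1, h1']
    show |dist (h (v i)) (h (v j)) - dist (v i) (v j)| ≤ ε
    rw [this]; simpa using hε.le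
  | @con n k u φs ih =>
    intro ε hε
    have hK : IsCompact (Set.Icc (0 : Fin k → ℝ) 1) := isCompact_Icc
    have huc := hK.uniformContinuousOn_of_continuous u.cont.continuousOn
    rw [Metric.uniformContinuousOn_iff] at huc
    obtain ⟨η, hη, hu⟩ := huc ε hε
    choose δ hδ hd using fun j => ih j (η / 2) (by positivity)
    have hfin : ∃ δ0 : ℝ, 0 < δ0 ∧ ∀ j, δ0 ≤ δ j := by
      rcases isEmpty_or_nonempty (Fin k) with hk | hk
      · exact ⟨1, one_pos, fun j => (hk.false j).elim⟩
      · refine ⟨Finset.univ.inf' Finset.univ_nonempty δ, ?_, fun j =>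
          Finset.inf'_le _ (Finset.mem_univ j)⟩
        rw [Finset.lt_inf'_iff]
        exact fun j _ => hδ j
    obtain ⟨δ0, hδ0, hle⟩ := hfin
    refine ⟨δ0, hδ0, fun h hh v => ?_⟩
    have h1 : ∀ w : Fin n → M, (fun j => (φs j).val c w) ∈ Set.Icc (0 : Fin k → ℝ) 1 :=
      fun w => ⟨fun j => (val_mem c (φs j) w).1, fun j => (val_mem c (φs j) w).2⟩
    have h2 : dist (fun j => (φs j).val c (fun i => h (v i))) (fun j => (φs j).val c v) < η := by
      refine lt_of_le_of_lt ((dist_pi_le_iff (by positivity : (0 : ℝ) ≤ η / 2)).2 fun j => ?_)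
        (half_lt_self hη)
      rw [Real.dist_eq]
      exact hd j h (fun z => (hh z).trans (hle j)) v
    have := hu _ (h1 _) _ (h1 v) h2
    rw [Real.dist_eq] at this
    exact this.le
  | @sup n φ ih =>
    intro ε hε
    obtain ⟨δ, hδ, hd⟩ := ih ε hε
    refine ⟨δ, hδ, fun h hh v => ?_⟩
    have : Nonempty M := Str.ne (L := LP)
    have key : ∀ x : M, |φ.val c (Fin.snoc (α := fun _ => M) (fun i => h (v i)) (h x)) -
        φ.val c (Fin.snoc (α := fun _ => M) v x)| ≤ ε := by
      intro x
      have := hd h hh (Fin.snoc (α := fun _ => M) v x)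
      have e : (fun i => h (Fin.snoc (α := fun _ => M) v x i)) =
          Fin.snoc (α := fun _ => M) (fun i => h (v i)) (h x) := by
        funext i
        refine Fin.lastCases ?_ (fun j => ?_) i
        · simp
        · simp
      rwa [e] at this
    have e1 : (⨆ x : M, φ.val c (Fin.snoc (α := fun _ => M) (fun i => h (v i)) x)) =
        ⨆ x : M, φ.val c (Fin.snoc (α := fun _ => M) (fun i => h (v i)) (h x)) :=
      (h.surjective.iSup_comp _).symm
    show |(⨆ x : M, φ.val c (Fin.snoc (α := fun _ => M) (fun i => h (v i)) x)) -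
      ⨆ x : M, φ.val c (Fin.snoc (α := fun _ => M) v x)| ≤ ε
    rw [e1, abs_le]
    have b1 := bddA c φ v
    have b2 : BddAbove (Set.range fun x : M =>
        φ.val c (Fin.snoc (α := fun _ => M) (fun i => h (v i)) (h x))) :=
      ⟨1, by rintro _ ⟨x, rfl⟩; exact (val_mem c φ _).2⟩
    constructor
    · have : (⨆ x : M, φ.val c (Fin.snoc (α := fun _ => M) v x)) ≤
          (⨆ x : M, φ.val c (Fin.snoc (α := fun _ => M) (fun i => h (v i)) (h x))) + ε := by
        refine ciSup_le fun x => ?_
        have h1 := (abs_le.1 (key x)).1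
        have h2 := le_ciSup b2 x
        linarith
      linarith
    · have : (⨆ x : M, φ.val c (Fin.snoc (α := fun _ => M) (fun i => h (v i)) (h x))) ≤
          (⨆ x : M, φ.val c (Fin.snoc (α := fun _ => M) v x)) + ε := by
        refine ciSup_le fun x => ?_
        have h1 := (abs_le.1 (key x)).2
        have h2 := le_ciSup b1 x
        linarith
      linarith
  | @inf n φ ih =>
    intro ε hε
    obtain ⟨δ, hδ, hd⟩ := ih ε hε
    refine ⟨δ, hδ, fun h hh v => ?_⟩
    have : Nonempty M := Str.ne (L := LP)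
    have key : ∀ x : M, |φ.val c (Fin.snoc (α := fun _ => M) (fun i => h (v i)) (h x)) -
        φ.val c (Fin.snoc (α := fun _ => M) v x)| ≤ ε := by
      intro x
      have := hd h hh (Fin.snoc (α := fun _ => M) v x)
      have e : (fun i => h (Fin.snoc (α := fun _ => M) v x i)) =
          Fin.snoc (α := fun _ => M) (fun i => h (v i)) (h x) := by
        funext i
        refine Fin.lastCases ?_ (fun j => ?_) i
        · simp
        · simp
      rwa [e] at this
    have e1 : (⨅ x : M, φ.val c (Fin.snoc (α := fun _ => M) (fun i => h (v i)) x)) =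
        ⨅ x : M, φ.val c (Fin.snoc (α := fun _ => M) (fun i => h (v i)) (h x)) :=
      (h.surjective.iInf_comp _).symm
    show |(⨅ x : M, φ.val c (Fin.snoc (α := fun _ => M) (fun i => h (v i)) x)) -
      ⨅ x : M, φ.val c (Fin.snoc (α := fun _ => M) v x)| ≤ ε
    rw [e1, abs_le]
    have b1 := bddB c φ v
    have b2 : BddBelow (Set.range fun x : M =>
        φ.val c (Fin.snoc (α := fun _ => M) (fun i => h (v i)) (h x))) :=
      ⟨0, by rintro _ ⟨x, rfl⟩; exact (val_mem c φ _).1⟩
    constructor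
    · have : (⨅ x : M, φ.val c (Fin.snoc (α := fun _ => M) v x)) - ε ≤
          (⨅ x : M, φ.val c (Fin.snoc (α := fun _ => M) (fun i => h (v i)) (h x))) := by
        refine le_ciInf fun x => ?_
        have h1 := (abs_le.1 (key x)).1
        have h2 := ciInf_le b1 x
        linarith
      linarith
    · have : (⨅ x : M, φ.val c (Fin.snoc (α := fun _ => M) (fun i => h (v i)) (h x))) - ε ≤
          (⨅ x : M, φ.val c (Fin.snoc (α := fun _ => M) v x)) := by
        refine le_ciInf fun x => ?_
        have h1 := (abs_le.1 (key x)).2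
        have h2 := ciInf_le b2 x
        linarith
      linarith

end inv

section perm

/-- an isomorphism of finite subsets extends to a permutation -/
theorem exists_perm {M : Type} [MetricSpace M] [Str LP M] {δ : ℝ} (hδ : 0 ≤ δ) (n : ℕ) :
    ∀ v w : Fin n → M, (∀ i j, v i = v j ↔ w i = w j) → (∀ i, |PP (v i) - PP (w i)| ≤ δ) →
      ∃ h : Equiv.Perm M, (∀ i, h (v i) = w i) ∧ ∀ z, |PP (h z) - PP z| ≤ (2 ^ n - 1) * δ := by
  classical
  induction n with
  | zero =>
    intro v w _ _
    exact ⟨1, fun i => i.elim0, fun z => by simp⟩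
  | succ n ih =>
    intro v w hvw hP
    obtain ⟨h0, h1, h2⟩ := ih (fun i => v i.castSucc) (fun i => w i.castSucc)
      (fun i j => hvw _ _) (fun i => hP _)
    have hpow : (1 : ℝ) ≤ 2 ^ n := one_le_pow₀ (by norm_num)
    by_cases e : h0 (v (Fin.last n)) = w (Fin.last n)
    · refine ⟨h0, fun i => ?_, fun z => (h2 z).trans ?_⟩
      · refine Fin.lastCases e (fun j => h1 j) i
      · refine mul_le_mul_of_nonneg_right ?_ hδ
        rw [pow_succ]; linarith
    · refine ⟨Equiv.swap (h0 (v (Fin.last n))) (w (Fin.last n)) * h0, fun i => ?_, fun z => ?_⟩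
      · refine Fin.lastCases ?_ (fun j => ?_) i
        · simp
        · rw [Equiv.Perm.mul_apply, h1 j]
          refine Equiv.swap_apply_of_ne_of_ne ?_ ?_
          · intro H
            have : v j.castSucc = v (Fin.last n) := h0.injective (by rw [h1 j, H])
            have h3 := (hvw _ _).1 this
            exact e (by rw [← H, h3])
          · intro H
            have : v j.castSucc = v (Fin.last n) := (hvw _ _).2 H
            exact e (by rw [← this, h1 j, H])
      · rw [Equiv.Perm.mul_apply]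
        have h3 := h2 z
        have h4 : |PP (h0 (v (Fin.last n))) - PP (w (Fin.last n))| ≤ (2 ^ n - 1) * δ + δ := by
          have := h2 (v (Fin.last n))
          have h5 := hP (Fin.last n)
          rw [abs_le] at *
          constructor <;> linarith [this.1, this.2, h5.1, h5.2]
        have h6 : |PP (Equiv.swap (h0 (v (Fin.last n))) (w (Fin.last n)) (h0 z)) - PP (h0 z)| ≤
            (2 ^ n - 1) * δ + δ := by
          rcases eq_or_ne (h0 z) (h0 (v (Fin.last n))) with E | E
          · rw [E, Equiv.swap_apply_left, abs_sub_comm]; exact h4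
          rcases eq_or_ne (h0 z) (w (Fin.last n)) with E' | E'
          · rw [E', Equiv.swap_apply_right]; exact h4
          rw [Equiv.swap_apply_of_ne_of_ne E E', sub_self, abs_zero]
          nlinarith
        rw [pow_succ]
        rw [abs_le] at *
        constructor <;> nlinarith [h3.1, h3.2, h6.1, h6.2]

end perm

section ultra

/-- a function on `ℕ` is constant along an ultrafilter, or it avoids every value -/
theorem const_or {X : Type} (U : Ultrafilter ℕ) (f : ℕ → X) :
    (∃ c, ∀ᶠ i in (U : Filter ℕ), f i = c) ∨ ∀ c, ∀ᶠ i in (U : Filter ℕ), f i ≠ c := by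
  by_cases h : ∃ c, ∀ᶠ i in (U : Filter ℕ), f i = c
  · exact Or.inl h
  · right
    intro c
    push Not at h
    exact h c

theorem pattern {X : Type} (U : Ultrafilter ℕ) (f g : ℕ → X) :
    ∀ᶠ i in (U : Filter ℕ), ∀ᶠ j in (U : Filter ℕ), (f i = g j ↔ f j = g i) := by
  rcases const_or U f with ⟨c, hc⟩ | hf
  · rcases const_or U g with ⟨d, hd⟩ | hg
    · filter_upwards [hc, hd] with i h1 h2
      filter_upwards [hc, hd] with j h3 h4
      rw [h1, h2, h3, h4]
    · filter_upwards [hc, hg c] with i h1 h2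
      filter_upwards [hc, hg c] with j h3 h4
      rw [h1, h3]
      exact ⟨fun h => absurd h.symm h4, fun h => absurd h.symm h2⟩
  · rcases const_or U g with ⟨d, hd⟩ | hg
    · filter_upwards [hd, hf d] with i h1 h2
      filter_upwards [hd, hf d] with j h3 h4
      rw [h1, h3]
      exact ⟨fun h => absurd h h2, fun h => absurd h h4⟩
    · filter_upwards with i
      filter_upwards [hg (f i), hf (g i)] with j h3 h4
      exact ⟨fun h => absurd h.symm h3, fun h => absurd h h4⟩

theorem pattern_self {X : Type} (U : Ultrafilter ℕ) (f g : ℕ → X) :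
    ∀ᶠ i in (U : Filter ℕ), ∀ᶠ j in (U : Filter ℕ), (f i = g i ↔ f j = g j) := by
  rcases U.eventually_or.1 (Filter.Eventually.of_forall (fun i => em (f i = g i))) with h | h
  · filter_upwards [h] with i h1
    filter_upwards [h] with j h2
    exact ⟨fun _ => h2, fun _ => h1⟩
  · filter_upwards [h] with i h1
    filter_upwards [h] with j h2
    exact ⟨fun h => absurd h h1, fun h => absurd h h2⟩

theorem close (U : Ultrafilter ℕ) (f : ℕ → ℝ) (hf : ∀ i, f i ∈ Set.Icc (0 : ℝ) 1) {δ : ℝ}
    (hδ : 0 < δ) : ∀ᶠ i in (U : Filter ℕ), ∀ᶠ j in (U : Filter ℕ), |f i - f j| ≤ δ := by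
  have hK : IsCompact (Set.Icc (0 : ℝ) 1) := isCompact_Icc
  obtain ⟨x, _, hx⟩ := hK.ultrafilter_le_nhds (U.map f)
    (by
      rw [Filter.le_principal_iff]
      exact Filter.Eventually.of_forall (f := (U : Filter ℕ)) hf)
  have hb : ∀ᶠ i in (U : Filter ℕ), dist (f i) x < δ / 2 :=
    hx (Metric.ball_mem_nhds x (half_pos hδ))
  filter_upwards [hb] with i h1
  filter_upwards [hb] with j h2
  rw [Real.dist_eq] at h1 h2
  rw [abs_lt] at h1 h2
  rw [abs_le]
  constructor <;> linarith [h1.1, h1.2, h2.1, h2.2]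

/-- stability of the structures with the `0`-`1`-metric -/
theorem stable_of_ZO {M : Type} [MetricSpace M] [Str LP M] (hM : ZO M) {m n : ℕ}
    (φ : Fm LP Empty (m + n)) (ε : ℝ) (hε : 0 < ε) (a : ℕ → Fin m → M) (b : ℕ → Fin n → M) :
    ∃ i j : ℕ, i < j ∧ |φ.val (M := M) Empty.elim (Fin.append (a i) (b j)) -
        φ.val (M := M) Empty.elim (Fin.append (a j) (b i))| < ε := by
  obtain ⟨δ, hδ, hd⟩ := inv hM Empty.elim φ (ε / 2) (half_pos hε)
  set δ' : ℝ := δ / 2 ^ (m + n) with hδ'
  have hδ'0 : 0 < δ' := by positivity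
  set U : Ultrafilter ℕ := Filter.hyperfilter ℕ
  have hcof : ∀ i : ℕ, ∀ᶠ j in (U : Filter ℕ), i < j := by
    intro i
    have : ∀ᶠ j in Filter.cofinite, i < j := by
      rw [Nat.cofinite_eq_atTop]; exact Filter.eventually_gt_atTop i
    exact this.filter_mono Filter.hyperfilter_le_cofinite
  -- the equality patterns
  have P1 : ∀ᶠ i in (U : Filter ℕ), ∀ᶠ j in (U : Filter ℕ), ∀ (s : Fin m) (t : Fin n),
      (a i s = b j t ↔ a j s = b i t) := by
    have : ∀ (s : Fin m) (t : Fin n), ∀ᶠ i in (U : Filter ℕ), ∀ᶠ j in (U : Filter ℕ),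
        (a i s = b j t ↔ a j s = b i t) := fun s t => pattern U (fun i => a i s) (fun i => b i t)
    have := Filter.eventually_all.2 fun s => Filter.eventually_all.2 fun t => this s t
    filter_upwards [this] with i hi
    exact Filter.eventually_all.2 fun s => Filter.eventually_all.2 fun t => hi s t
  have P2 : ∀ᶠ i in (U : Filter ℕ), ∀ᶠ j in (U : Filter ℕ), ∀ (s t : Fin m),
      (a i s = a i t ↔ a j s = a j t) := by
    have : ∀ (s : Fin m) (t : Fin m), ∀ᶠ i in (U : Filter ℕ), ∀ᶠ j in (U : Filter ℕ),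
        (a i s = a i t ↔ a j s = a j t) :=
      fun s t => pattern_self U (fun i => a i s) (fun i => a i t)
    have := Filter.eventually_all.2 fun s => Filter.eventually_all.2 fun t => this s t
    filter_upwards [this] with i hi
    exact Filter.eventually_all.2 fun s => Filter.eventually_all.2 fun t => hi s t
  have P3 : ∀ᶠ i in (U : Filter ℕ), ∀ᶠ j in (U : Filter ℕ), ∀ (s t : Fin n),
      (b i s = b i t ↔ b j s = b j t) := by
    have : ∀ (s : Fin n) (t : Fin n), ∀ᶠ i in (U : Filter ℕ), ∀ᶠ j in (U : Filter ℕ),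
        (b i s = b i t ↔ b j s = b j t) :=
      fun s t => pattern_self U (fun i => b i s) (fun i => b i t)
    have := Filter.eventually_all.2 fun s => Filter.eventually_all.2 fun t => this s t
    filter_upwards [this] with i hi
    exact Filter.eventually_all.2 fun s => Filter.eventually_all.2 fun t => hi s t
  have P4 : ∀ᶠ i in (U : Filter ℕ), ∀ᶠ j in (U : Filter ℕ), ∀ (s : Fin m),
      |PP (a i s) - PP (a j s)| ≤ δ' := by
    have := Filter.eventually_all.2 fun s : Fin m =>
      close U (fun i => PP (a i s)) (fun i => PP_mem _) hδ'0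
    filter_upwards [this] with i hi
    exact Filter.eventually_all.2 fun s => hi s
  have P5 : ∀ᶠ i in (U : Filter ℕ), ∀ᶠ j in (U : Filter ℕ), ∀ (s : Fin n),
      |PP (b i s) - PP (b j s)| ≤ δ' := by
    have := Filter.eventually_all.2 fun s : Fin n =>
      close U (fun i => PP (b i s)) (fun i => PP_mem _) hδ'0
    filter_upwards [this] with i hi
    exact Filter.eventually_all.2 fun s => hi s
  obtain ⟨i, h1, h2, h3, h4, h5⟩ := (P1.and (P2.and (P3.and (P4.and P5)))).exists
  obtain ⟨j, g1, g2, g3, g4, g5, g6⟩ :=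
    (h1.and (h2.and (h3.and (h4.and (h5.and (hcof i)))))).exists
  refine ⟨i, j, g6, ?_⟩
  obtain ⟨h, hh1, hh2⟩ := exists_perm hδ'0.le (m + n) (Fin.append (a i) (b j))
    (Fin.append (a j) (b i)) (by
      intro s t
      refine Fin.addCases (fun s => ?_) (fun s => ?_) s <;>
        refine Fin.addCases (fun t => ?_) (fun t => ?_) t
      · simpa using g2 s t
      · simpa using g1 s t
      · simpa [eq_comm] using g1 t s
      · simpa using (g3 s t).symm) (by
      intro s
      refine Fin.addCases (fun s => ?_) (fun s => ?_) s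
      · simpa using g4 s
      · have := g5 s
        rw [abs_sub_comm] at this
        simpa using this)
  have hle : (2 ^ (m + n) - 1) * δ' ≤ δ := by
    have : 2 ^ (m + n) * δ' = δ := by
      rw [hδ']; field_simp
    nlinarith
  have := hd h (fun z => (hh2 z).trans hle) (Fin.append (a i) (b j))
  have e : (fun s => h (Fin.append (a i) (b j) s)) = Fin.append (a j) (b i) := funext hh1
  rw [e, abs_sub_comm] at this
  exact lt_of_le_of_lt this (half_lt_self hε)

end ultra

/-! ## sentences -/

section sent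

/-- the connective `t ↦ min 1 |t - r|` -/
noncomputable def uabs (r : ℝ) : Con 1 where
  u x := min 1 |x 0 - r|
  cont := by fun_prop
  mem x := ⟨le_min zero_le_one (abs_nonneg _), min_le_left _ _⟩

/-- the connective `t ↦ t (1 - t)`, cut off -/
noncomputable def uzo : Con 1 where
  u x := max 0 (min 1 (x 0 * (1 - x 0)))
  cont := by fun_prop
  mem x := ⟨le_max_left _ _, max_le zero_le_one (min_le_left _ _)⟩

/-- the sentence saying that the metric has the values `0` and `1` -/
noncomputable def sZO : Fm LP Empty 0 :=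
  .sup (.sup (.con uzo fun _ => .dst (.var 0) (.var 1)))

/-- the formula `|P(x) - r|` -/
noncomputable def fP (C : Type) (r : ℝ) : Fm LP C 1 :=
  .con (uabs r) fun _ => .rel (k := 1) (⟨rfl⟩ : PLift (1 = 1)) fun _ => .var 0

/-- the sentence saying that the predicate has values near `r` -/
noncomputable def sP (r : ℝ) : Fm LP Empty 0 := .inf (fP Empty r)

variable {C : Type} {M : Type} [MetricSpace M] [Str LP M]

theorem val_fP (c : C → M) (r : ℝ) (v : Fin 1 → M) :
    (fP C r).val c v = min 1 |PP (v 0) - r| := rfl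

theorem zo_of_sent (h : sZO.val (M := M) Empty.elim Fin.elim0 = 0) : ZO M := by
  intro x y
  have h1 : ∀ v : Fin 2 → M,
      (Fm.con (L := LP) (C := Empty) uzo fun _ => .dst (.var 0) (.var 1)).val (M := M)
        Empty.elim v = max 0 (min 1 (dist (v 0) (v 1) * (1 - dist (v 0) (v 1)))) := fun v => rfl
  have h2 := le_ciSup (bddA (M := M) Empty.elim
    (Fm.sup (.con uzo fun _ => .dst (L := LP) (C := Empty) (.var 0) (.var 1))) Fin.elim0) x
  have h3 := le_ciSup (bddA (M := M) Empty.elim
    (Fm.con uzo fun _ => .dst (L := LP) (C := Empty) (.var 0) (.var 1))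
      (Fin.snoc (α := fun _ => M) Fin.elim0 x)) y
  have h4 : (Fm.con uzo fun _ => Fm.dst (L := LP) (C := Empty) (.var 0) (.var 1)).val (M := M)
      Empty.elim (Fin.snoc (α := fun _ => M) (Fin.snoc (α := fun _ => M) Fin.elim0 x) y) ≤ 0 :=
    le_trans h3 (le_trans h2 (le_of_eq h))
  rw [h1] at h4
  have e0 : (Fin.snoc (α := fun _ => M) (Fin.snoc (α := fun _ => M) Fin.elim0 x) y :
      Fin 2 → M) 0 = x := rfl
  have e1 : (Fin.snoc (α := fun _ => M) (Fin.snoc (α := fun _ => M) Fin.elim0 x) y :
      Fin 2 → M) 1 = y := rfl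
  rw [e0, e1] at h4
  have h5 : min 1 (dist x y * (1 - dist x y)) ≤ 0 := (le_max_right _ _).trans h4
  have h6 : dist x y * (1 - dist x y) ≤ 0 := by
    rcases min_le_iff.1 h5 with h | h
    · linarith
    · exact h
  have h7 : 0 ≤ dist x y := dist_nonneg
  have h8 : dist x y ≤ 1 := Str.diam (L := LP) x y
  have h9 : dist x y * (1 - dist x y) = 0 := le_antisymm h6 (mul_nonneg h7 (by linarith))
  rcases mul_eq_zero.1 h9 with h | h
  · exact Or.inl h
  · right; linarith

theorem sent_of_zo (h : ZO M) : sZO.val (M := M) Empty.elim Fin.elim0 = 0 := by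
  have hne : Nonempty M := Str.ne (L := LP)
  have h1 : ∀ v : Fin 2 → M,
      (Fm.con (L := LP) (C := Empty) uzo fun _ => .dst (.var 0) (.var 1)).val (M := M)
        Empty.elim v = 0 := by
    intro v
    show max 0 (min 1 (dist (v 0) (v 1) * (1 - dist (v 0) (v 1)))) = 0
    rcases h (v 0) (v 1) with h | h <;> rw [h] <;> simp
  show (⨆ x : M, ⨆ y : M, (Fm.con (L := LP) (C := Empty) uzo
    fun _ => .dst (.var 0) (.var 1)).val (M := M) Empty.elim
      (Fin.snoc (α := fun _ => M) (Fin.snoc (α := fun _ => M) Fin.elim0 x) y)) = 0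
  simp only [h1, ciSup_const]

theorem dense_of_sent {r : ℝ} (h : (sP r).val (M := M) Empty.elim Fin.elim0 = 0) {δ : ℝ}
    (hδ : 0 < δ) : ∃ x : M, |PP x - r| < δ := by
  have hne : Nonempty M := Str.ne (L := LP)
  have h1 : (⨅ x : M, min 1 |PP x - r|) = 0 := h
  have h2 : (⨅ x : M, min 1 |PP x - r|) < min 1 δ := by
    rw [h1]; exact lt_min one_pos hδ
  obtain ⟨x, hx⟩ := exists_lt_of_ciInf_lt h2
  refine ⟨x, ?_⟩
  rcases min_lt_iff.1 (lt_of_lt_of_le hx (le_refl _)) with h | h
  · exact absurd h (not_lt.2 (min_le_left _ _))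
  · exact lt_of_lt_of_le h (min_le_right _ _)

theorem sent_of_mem {r : ℝ} (h : ∃ x : M, PP x = r) :
    (sP r).val (M := M) Empty.elim Fin.elim0 = 0 := by
  obtain ⟨x, hx⟩ := h
  have hne : Nonempty M := ⟨x⟩
  refine le_antisymm ?_ (val_mem _ _ _).1
  have := ciInf_le (bddB (M := M) Empty.elim (fP Empty r) Fin.elim0) x
  refine le_trans this (le_of_eq ?_)
  rw [val_fP]
  have e0 : (Fin.snoc (α := fun _ => M) Fin.elim0 x : Fin 1 → M) 0 = x := rfl
  rw [e0, hx]; simp

end sent

/-! ## d-definable sets -/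

theorem ddef_trivial {M : Type} [MetricSpace M] [Str LP M] (hM : ZO M)
    (hP : ∀ r ∈ Set.Icc (0 : ℝ) 1, ∀ δ > 0, ∃ x : M, |PP x - r| < δ)
    (D : Set (Fin 1 → M)) (hD : DDef LP (∅ : Set M) D) : D = ∅ ∨ D = Set.univ := by
  classical
  by_contra hcon
  push Not at hcon
  obtain ⟨hne, hnu⟩ := hcon
  obtain ⟨y, hy⟩ := hne
  obtain ⟨x, hx⟩ := (Set.ne_univ_iff_exists_notMem D).1 hnu
  -- the distance to `D` outside of `D` is at least one
  have hinf : ∀ z ∉ D, 1 ≤ Metric.infDist z D := by
    intro z hz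
    refine (Metric.le_infDist ⟨y, hy⟩).2 fun w hw => ?_
    have hzw : z 0 ≠ w 0 := by
      intro H
      apply hz
      have : z = w := by
        funext i
        obtain rfl : i = 0 := Subsingleton.elim _ _
        exact H
      rw [this]; exact hw
    have h1 : dist (z 0) (w 0) = 1 := by
      rcases hM (z 0) (w 0) with h | h
      · exact absurd (dist_eq_zero.1 h) hzw
      · exact h
    rw [← h1]
    exact dist_le_pi_dist z w 0
  obtain ⟨φ, hφ⟩ := hD.2 (1 / 4) (by norm_num)
  obtain ⟨δ, hδ, hd⟩ := inv hM (fun a : (∅ : Set M) => (a : M)) φ (1 / 4) (by norm_num)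
  have key : ∀ z w : Fin 1 → M, |PP (z 0) - PP (w 0)| ≤ δ → z ∈ D → w ∈ D := by
    intro z w hzw hz
    by_contra hw
    have h1 := hd (Equiv.swap (z 0) (w 0)) (by
      intro t
      rcases eq_or_ne t (z 0) with E | E
      · rw [E, Equiv.swap_apply_left, abs_sub_comm]; exact hzw
      rcases eq_or_ne t (w 0) with E' | E'
      · rw [E', Equiv.swap_apply_right]; exact hzw
      rw [Equiv.swap_apply_of_ne_of_ne E E', sub_self, abs_zero]; exact hδ.le) z
    have e : (fun i => Equiv.swap (z 0) (w 0) (z i)) = w := by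
      funext i
      obtain rfl : i = 0 := Subsingleton.elim _ _
      exact Equiv.swap_apply_left _ _
    rw [e] at h1
    have h2 := hφ z
    have h3 := hφ w
    have h4 := hinf w hw
    have h5 : Metric.infDist z D = 0 := Metric.infDist_zero_of_mem hz
    rw [abs_le] at *
    linarith [h1.1, h1.2, h2.1, h2.2, h3.1, h3.2]
  have hconn : IsPreconnected (Set.Icc (0 : ℝ) 1) := isPreconnected_Icc
  have := hconn (⋃ z ∈ D, Metric.ball (PP (z 0)) (δ / 2)) (⋃ z ∈ Dᶜ, Metric.ball (PP (z 0)) (δ / 2))
    (isOpen_biUnion fun _ _ => Metric.isOpen_ball) (isOpen_biUnion fun _ _ => Metric.isOpen_ball)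
    (by
      intro r hr
      obtain ⟨t, ht⟩ := hP r hr (δ / 2) (half_pos hδ)
      by_cases h : (fun _ => t : Fin 1 → M) ∈ D
      · left
        refine Set.mem_iUnion₂.2 ⟨_, h, ?_⟩
        rw [Metric.mem_ball, Real.dist_eq, abs_sub_comm]; exact ht
      · right
        refine Set.mem_iUnion₂.2 ⟨_, h, ?_⟩
        rw [Metric.mem_ball, Real.dist_eq, abs_sub_comm]; exact ht)
    ⟨PP (y 0), PP_mem _, Set.mem_iUnion₂.2 ⟨y, hy, Metric.mem_ball_self (half_pos hδ)⟩⟩
    ⟨PP (x 0), PP_mem _, Set.mem_iUnion₂.2 ⟨x, hx, Metric.mem_ball_self (half_pos hδ)⟩⟩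
  obtain ⟨r, _, h1, h2⟩ := this
  obtain ⟨z, hz, hz'⟩ := Set.mem_iUnion₂.1 h1
  obtain ⟨w, hw, hw'⟩ := Set.mem_iUnion₂.1 h2
  rw [Metric.mem_ball, Real.dist_eq] at hz' hw'
  refine hw (key z w ?_ hz)
  rw [abs_lt] at hz' hw'
  rw [abs_le]
  constructor <;> linarith [hz'.1, hz'.2, hw'.1, hw'.2]

/-! ## the model -/

/-- the underlying set of the model -/
structure M0 where
  r : unitInterval
  k : ℕ

open Classical in
noncomputable instance : MetricSpace M0 where
  dist x y := if x = y then 0 else 1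
  dist_self x := by simp
  dist_comm x y := by simp only [eq_comm]
  dist_triangle x y z := by
    by_cases h1 : x = y
    · subst h1; simp
    · by_cases h2 : y = z
      · subst h2; simp
      · simp only [if_neg h1, if_neg h2]
        split_ifs <;> norm_num
  eq_of_dist_eq_zero {x y} h := by
    by_contra hne
    have : (if x = y then (0 : ℝ) else 1) = 0 := h
    simp [hne] at this

theorem M0_zo : ZO M0 := by
  classical
  intro x y
  by_cases h : x = y
  · left; exact if_pos h
  · right; exact if_neg h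

theorem M0_eq_of {x y : M0} (h : dist x y < 1) : x = y := by
  rcases M0_zo x y with h0 | h0
  · exact dist_eq_zero.1 h0
  · linarith

noncomputable instance : Str LP M0 where
  fn F _ := (F : Empty).elim
  rl {n} R v := ((v ⟨0, by have := PLift.down (show PLift (n = 1) from R); omega⟩).r : ℝ)
  ne := ⟨⟨0, 0⟩⟩
  complete := by
    refine Metric.complete_of_cauchySeq_tendsto fun u hu => ?_
    obtain ⟨N, hN⟩ := Metric.cauchySeq_iff'.1 hu 1 one_pos
    refine ⟨u N, ?_⟩
    refine tendsto_const_nhds.congr' ?_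
    filter_upwards [Filter.eventually_ge_atTop N] with n hn
    exact (M0_eq_of (hN n hn)).symm
  diam x y := by
    rcases M0_zo x y with h | h <;> rw [h]
    exact zero_le_one
  rl_mem {n} R v := ⟨unitInterval.nonneg _, unitInterval.le_one _⟩
  fn_unif F _ _ _ _ _ := (F : Empty).elim
  rl_unif {n} R ε hε v w h := by
    have hvw : v = w := by
      funext i
      refine M0_eq_of (lt_of_le_of_lt (dist_le_pi_dist v w i) (lt_of_lt_of_le h ?_))
      show (1 / 2 : ℝ) ≤ 1
      norm_num
    rw [hvw]; simpa using hε.le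

theorem PP_M0 (x : M0) : PP x = (x.r : ℝ) := rfl

/-- the theory of the model -/
def T0 : Set (Fm LP Empty 0) := {σ | σ.val (M := M0) Empty.elim Fin.elim0 = 0}

theorem T0_zo {M : Type} [MetricSpace M] [Str LP M] (h : Model T0 M) : ZO M :=
  zo_of_sent (h sZO (sent_of_zo M0_zo))

theorem T0_dense {M : Type} [MetricSpace M] [Str LP M] (h : Model T0 M) :
    ∀ r ∈ Set.Icc (0 : ℝ) 1, ∀ δ > 0, ∃ x : M, |PP x - r| < δ := fun r hr δ hδ =>
  dense_of_sent (h (sP r) (sent_of_mem ⟨⟨⟨r, hr⟩, 0⟩, rfl⟩)) hδ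

theorem T0_complete {M : Type} [MetricSpace M] [Str LP M] (h : Model T0 M)
    (σ : Fm LP Empty 0) :
    σ.val (M := M) Empty.elim Fin.elim0 = σ.val (M := M0) Empty.elim Fin.elim0 := by
  set r := σ.val (M := M0) Empty.elim Fin.elim0 with hr
  have h1 : (Fm.con (uabs r) fun _ => σ) ∈ T0 := by
    show min 1 |σ.val (M := M0) Empty.elim Fin.elim0 - r| = 0
    rw [← hr]; simp
  have h2 : min 1 |σ.val (M := M) Empty.elim Fin.elim0 - r| = 0 := h _ h1
  rcases min_choice (1 : ℝ) |σ.val (M := M) Empty.elim Fin.elim0 - r| with h3 | h3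
  · rw [h2] at h3; norm_num at h3
  · rw [h2] at h3
    have := abs_eq_zero.1 h3.symm
    linarith

theorem t_EX : S_EX := by
  refine ⟨LP, ?_, ?_, T0, ?_, ?_, ?_, ?_⟩
  · have : IsEmpty (Σ n, LP.Fn n) := ⟨fun x => (x.2 : Empty).elim⟩
    infer_instance
  · refine ⟨⟨fun x => x.1, ?_⟩⟩
    rintro ⟨n, R⟩ ⟨m, S⟩ h
    obtain rfl : n = m := h
    have : R = S := by
      have : Subsingleton (PLift (n = 1)) := ⟨fun ⟨_⟩ ⟨_⟩ => rfl⟩
      exact Subsingleton.elim (α := PLift (n = 1)) R S
    rw [this]
  · intro M _ _ hM m n φ ε hε a b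
    exact stable_of_ZO (T0_zo hM) φ ε hε a b
  · refine ⟨M0, inferInstance, inferInstance, fun σ hσ => hσ,
      tp LP (id : M0 → M0) ∅ (fun _ : Fin 1 => (⟨0, 0⟩ : M0)), ?_, ?_, ?_⟩
    · exact ⟨M0, inferInstance, inferInstance, id, fun n φ v => rfl, _, rfl⟩
    · exact ⟨fun _ => ⟨0, 0⟩, rfl⟩
    · intro H
      have : (fun _ : Fin 1 => (⟨1, 0⟩ : M0)) ∈ Realizations (L := LP) ∅
          (tp LP (id : M0 → M0) ∅ (fun _ : Fin 1 => (⟨0, 0⟩ : M0))) := by
        rw [H]; trivial
      have h1 := congrFun this (fP _ 0)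
      have h2 : min (1 : ℝ) |((1 : unitInterval) : ℝ) - 0| =
        min 1 |((0 : unitInterval) : ℝ) - 0| := h1
      norm_num at h2
  · intro M _ _ hM D hD
    exact ddef_trivial (T0_zo hM) (T0_dense hM) D hD
  · intro M N _ _ _ _ hM hN σ
    rw [T0_complete hM, T0_complete hN]

end Pool.Agent.Run7.h194.CL
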